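import Pool.Agent.Lib.MP_c64b61_an.Cases

/-!
Bounded continuous maps on a Lindelof set of extreme points extend to the first affine class.
-/

open Set Filter Topology Bornology MeasureTheory Pointwise

namespace Pool.Agent.Results.MP_c64b61_an.AffineBaireOne

universe u v w

/-- `g : X → F` preserves convex combinations. -/
def IsAffine {V : Type u} {F : Type v} [AddCommMonoid V] [Module ℝ V] [AddCommGroup F] [Module ℝ F]
    {X : Set V} (g : X → F) : Prop :=
  ∀ (x y z : X) (t : ℝ), 0 ≤ t → t ≤ 1 → (z : V) = t • (x : V) + (1 - t) • (y : V) →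
    g z = t • g x + (1 - t) • g y

/-- `g : X → F` is a pointwise limit of a sequence of continuous affine maps. -/
def IsAffineClassOne {V : Type u} {F : Type v} [AddCommMonoid V] [Module ℝ V] [TopologicalSpace V]
    [AddCommGroup F] [Module ℝ F] [TopologicalSpace F] {X : Set V} (g : X → F) : Prop :=
  ∃ a : ℕ → X → F, (∀ n, Continuous (a n) ∧ IsAffine (a n)) ∧
    ∀ x, Tendsto (fun n => a n x) atTop (𝓝 (g x))

/-- If the set of extreme points of `X` is Lindelof, every bounded continuous map `f` from it to `F`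
satisfying the condition `P` is the restriction of a map of the first affine class on `X`. -/
def ExtensionHolds {V : Type u} [AddCommMonoid V] [Module ℝ V] [TopologicalSpace V] (X : Set V)
    (F : Type v) [AddCommGroup F] [Module ℝ F] [TopologicalSpace F]
    (P : (X.extremePoints ℝ → F) → Prop) : Prop :=
  IsLindelof (X.extremePoints ℝ) →
    ∀ f : X.extremePoints ℝ → F, Continuous f → IsVonNBounded ℝ (range f) → P f →
      ∃ g : X → F, IsAffineClassOne g ∧
        ∀ (x : X) (hx : (x : V) ∈ X.extremePoints ℝ), g x = f ⟨x, hx⟩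

/-- The cone generated by `X × {1}` in `V × ℝ`. -/
def coneOver {V : Type u} [AddCommGroup V] [Module ℝ V] (X : Set V) : Set (V × ℝ) :=
  {p | ∃ t : ℝ, 0 ≤ t ∧ ∃ x ∈ X, p = t • (x, (1 : ℝ))}

/-- A Choquet simplex: a compact convex set such that `P - P` is a lattice in the order induced by
the cone `P` generated by `X × {1}`. -/
def IsChoquetSimplex {V : Type u} [AddCommGroup V] [Module ℝ V] [TopologicalSpace V]
    (X : Set V) : Prop :=
  IsCompact X ∧ Convex ℝ X ∧
    ∀ p ∈ coneOver X - coneOver X, ∀ q ∈ coneOver X - coneOver X,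
      ∃ r ∈ coneOver X - coneOver X, r - p ∈ coneOver X ∧ r - q ∈ coneOver X ∧
        ∀ r' ∈ coneOver X - coneOver X, r' - p ∈ coneOver X → r' - q ∈ coneOver X →
          r' - r ∈ coneOver X

/-- The dual unit ball with the weak-star topology. -/
def dualBall (𝕜 : Type) [RCLike 𝕜] (E : Type u) [NormedAddCommGroup E] [NormedSpace 𝕜 E] :
    Set (WeakDual 𝕜 E) :=
  {φ | ‖WeakDual.toStrongDual φ‖ ≤ 1}

/-- The dual of `E` is linearly isometric to some `L1(μ)`. -/
def IsL1Predual (𝕜 : Type) [RCLike 𝕜] (E : Type u) [NormedAddCommGroup E] [NormedSpace 𝕜 E] :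
    Prop :=
  ∃ (Ω : Type w) (_ : MeasurableSpace Ω) (μ : Measure Ω),
    Nonempty (StrongDual 𝕜 E ≃ₗᵢ[𝕜] Lp 𝕜 1 μ)

/-- `f (-x) = - f x`. -/
def IsOdd {V : Type u} {F : Type v} [Neg V] [Neg F] {A : Set V} (f : A → F) : Prop :=
  ∀ x y : A, (y : V) = -(x : V) → f y = -f x

/-- `f (α x) = α f x` for complex `α` of modulus one. -/
def IsHomogeneous {V : Type u} {F : Type v} [SMul ℂ V] [SMul ℂ F] {A : Set V} (f : A → F) : Prop :=
  ∀ (α : ℂ) (x y : A), ‖α‖ = 1 → (y : V) = α • (x : V) → f y = α • f x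

/-- The simplex case. -/
def CaseS : Prop :=
  ∀ (V : Type u) [AddCommGroup V] [Module ℝ V] [TopologicalSpace V] [IsTopologicalAddGroup V]
    [ContinuousSMul ℝ V] [LocallyConvexSpace ℝ V] [T2Space V]
    (F : Type v) [AddCommGroup F] [Module ℝ F] [UniformSpace F] [IsUniformAddGroup F]
    [ContinuousSMul ℝ F] [LocallyConvexSpace ℝ F] [CompleteSpace F]
    [TopologicalSpace.MetrizableSpace F]
    (X : Set V), IsChoquetSimplex X → ExtensionHolds X F (fun _ => True)

/-- The case of a real L1-predual. -/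
def CaseR : Prop :=
  ∀ (E : Type u) [NormedAddCommGroup E] [NormedSpace ℝ E] [CompleteSpace E]
    (F : Type v) [AddCommGroup F] [Module ℝ F] [UniformSpace F] [IsUniformAddGroup F]
    [ContinuousSMul ℝ F] [LocallyConvexSpace ℝ F] [CompleteSpace F]
    [TopologicalSpace.MetrizableSpace F],
    IsL1Predual.{u, w} ℝ E → ExtensionHolds (dualBall ℝ E) F IsOdd

/-- The case of a complex L1-predual. -/
def CaseC : Prop :=
  ∀ (E : Type u) [NormedAddCommGroup E] [NormedSpace ℂ E] [CompleteSpace E]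
    (F : Type v) [AddCommGroup F] [Module ℂ F] [UniformSpace F] [IsUniformAddGroup F]
    [ContinuousSMul ℂ F] [LocallyConvexSpace ℝ F] [CompleteSpace F]
    [TopologicalSpace.MetrizableSpace F],
    IsL1Predual.{u, w} ℂ E → ExtensionHolds (dualBall ℂ E) F IsHomogeneous

open Lib.MP_c64b61_an

theorem ball_transfer {𝕜 : Type} [RCLike 𝕜] {E : Type u} [NormedAddCommGroup E] [NormedSpace 𝕜 E]
    {Ω : Type w} [MeasurableSpace Ω] {μ : Measure Ω} (e : StrongDual 𝕜 E ≃ₗᵢ[𝕜] Lp 𝕜 1 μ)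
    {F : Type v} [AddCommGroup F] [Module 𝕜 F] [Module ℝ F] [IsScalarTower ℝ 𝕜 F] [UniformSpace F]
    [IsUniformAddGroup F] [ContinuousSMul 𝕜 F] [LocallyConvexSpace ℝ F] [CompleteSpace F]
    [TopologicalSpace.MetrizableSpace F]
    (hL : IsLindelof ((dualBall 𝕜 E).extremePoints ℝ))
    (f : (dualBall 𝕜 E).extremePoints ℝ → F) (hf : Continuous f)
    (hb : IsVonNBounded ℝ (range f))
    (hhom : ∀ (α : 𝕜) (x y : (dualBall 𝕜 E).extremePoints ℝ), ‖α‖ = 1 →
        (y : WeakDual 𝕜 E) = α • (x : WeakDual 𝕜 E) → f y = α • f x) :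
    ∃ g : dualBall 𝕜 E → F, IsAffineClassOne g ∧
        ∀ (x : dualBall 𝕜 E) (hx : (x : WeakDual 𝕜 E) ∈ (dualBall 𝕜 E).extremePoints ℝ),
          g x = f ⟨x, hx⟩ := by
  have h0 := ball_case e (F := F) (X := dualBall 𝕜 E) rfl hL (ext0 f)
  have h1 := h0 (ext0_cont f hf)
  have hb' : IsVonNBounded ℝ (ext0 f '' (dualBall 𝕜 E).extremePoints ℝ) := by
    rw [ext0_image]; exact hb
  have h2 := h1 hb'
  have h3 := h2 fun α hα x hx hx' => by
    rw [ext0_eq f hx, ext0_eq f hx']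
    exact hhom α ⟨x, hx⟩ ⟨_, hx'⟩ hα rfl
  obtain ⟨u, g, k1, k2, k3, k4⟩ := h3
  refine ⟨fun x => g x, ⟨fun n x => u n x, fun n => ⟨(k1 n).comp continuous_subtype_val, ?_⟩,
    fun x => k3 x x.2⟩, fun x hx => (k4 x hx).trans (ext0_eq f hx)⟩
  intro x y z t _ _ hz
  exact (congrArg (u n) hz).trans (k2 n x y t (1 - t) (by ring))

theorem result : CaseS.{u, v} ∧ CaseR.{u, v, w} ∧ CaseC.{u, v, w} := by
  refine ⟨?_, ?_, ?_⟩
  · intro V _ _ _ _ _ _ _ F _ _ _ _ _ _ _ _ X hX hL f hf hb _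
    obtain ⟨u, g, k1, k2, k3, k4⟩ := simplex_case hX.1 hX.2.1 hX.2.2 hL _ (ext0_cont f hf)
      ((ext0_image f).symm ▸ hb)
    refine ⟨fun x => g x, ⟨fun n x => u n x, fun n => ⟨(k1 n).comp continuous_subtype_val, ?_⟩,
      fun x => k3 x x.2⟩, fun x hx => (k4 x hx).trans (ext0_eq f hx)⟩
    intro x y z t _ _ hz
    exact (congrArg (u n) hz).trans (k2 n x y t (1 - t) (by ring))
  · intro E _ _ _ F _ _ _ _ _ _ _ _ ⟨Ω, _, μ, ⟨e⟩⟩ hL f hf hb hodd
    refine ball_transfer e hL f hf hb ?_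
    intro α x y hα hxy
    rcases (abs_eq zero_le_one).1 (show |α| = 1 from hα) with rfl | rfl
    · rw [one_smul] at hxy ⊢
      rw [Subtype.ext hxy]
    · rw [neg_one_smul] at hxy ⊢
      exact hodd x y hxy
  · intro E _ _ _ F _ _ _ _ _ _ _ _ ⟨Ω, _, μ, ⟨e⟩⟩ hL f hf hb hhom
    exact ball_transfer e hL f hf hb hhom

end Pool.Agent.Results.MP_c64b61_an.AffineBaireOne
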